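import Mathlib
import Pool.Agent.Results.MP_4cde56_an.NotCortex
import Pool.Agent.Y513.Ctx.MainK

set_option autoImplicit false

/-!
# Measure algebras of infinite-dimensional tori and of many other groups are not cortex algebras

The definitions (`convolve`, `IsCharacter`, `dd`, `JointTDZ`, `IsCortexAlgebra`) are those of the
starting file `NotCortex`, which settles the question by one compact group, the group
`G₀ = ∏_{(k,j) ∈ ℕ × ℕ} (ℤ/2 × ℤ/(k+2))`.

Here: the cortex property passes from a locally compact abelian group to its quotients by compact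
subgroups, and it fails for every locally compact abelian group `K` such that some quotient of `K`
by a compact subgroup contains a copy of `G₀`.  This applies to all infinite-dimensional tori
`𝕋^I` (`I` infinite), to all products `𝕋^I × H` with a locally compact abelian group `H`, and to
all compact abelian groups that have `𝕋^I` as a quotient.
-/

open scoped ZeroAtInfty Topology
open Filter Set

namespace Pool.Agent.Results.MP_4cde56_an.InfiniteTori
open Pool.Agent.Helper550 Pool.Agent.Results.MP_4cde56_an.NotCortex Pool.Agent.Y513.Ctx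

universe u v

section
variable {K : Type u} [AddCommGroup K] [TopologicalSpace K] [IsTopologicalAddGroup K] [T2Space K]
    [LocallyCompactSpace K]

theorem of_bound {n : ℕ} (φ : Rad.Meas K →ₐ[ℂ] ℂ) (x : Fin n → Rad.Meas K)
    (hx : ∀ j, φ (x j) = 0) (c : ℝ) (hb : ∀ ν : Rad.Meas K, c * ‖ν‖ ≤ ∑ j, ‖x j * ν‖) :
    ∃ ψ : StrongDual ℂ C₀(K, ℂ) →ₗ[ℂ] ℂ, IsCharacter ψ ∧
      ∃ y : Fin n → StrongDual ℂ C₀(K, ℂ), (∀ j, ψ (y j) = 0) ∧ c ≤ dd y := by
  let ψ : StrongDual ℂ C₀(K, ℂ) →ₗ[ℂ] ℂ :=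
    { toFun := fun μ => φ (μ : Rad.Meas K)
      map_add' := fun a b => map_add φ (a : Rad.Meas K) (b : Rad.Meas K)
      map_smul' := fun c a => map_smul φ c (a : Rad.Meas K) }
  refine ⟨ψ, ⟨?_, ?_⟩, x, hx, ?_⟩
  · intro h0
    have h4 : ψ (1 : Rad.Meas K) = 1 := map_one φ
    rw [h0] at h4
    exact zero_ne_one h4
  · intro α β
    exact map_mul φ (show Rad.Meas K from α) (show Rad.Meas K from β)
  · have hne : {r : ℝ | ∃ ν : StrongDual ℂ C₀(K, ℂ), ‖ν‖ = 1 ∧
        r = ∑ j, ‖convolve (x j) ν‖}.Nonempty :=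
      ⟨_, (1 : Rad.Meas K), norm_one (α := Rad.Meas K), rfl⟩
    apply le_csInf hne
    rintro r ⟨ν, hν, rfl⟩
    have h4 : c * ‖ν‖ ≤ ∑ j, ‖convolve (x j) ν‖ := hb ν
    rwa [hν, mul_one] at h4

theorem dd_nonneg {n : ℕ} (x : Fin n → StrongDual ℂ C₀(K, ℂ)) : 0 ≤ dd x := by
  apply Real.sInf_nonneg
  rintro r ⟨ν, -, rfl⟩
  exact Finset.sum_nonneg fun j _ => (convolve (x j) ν).opNorm_nonneg

theorem bound_of_dd {n : ℕ} (x : Fin n → StrongDual ℂ C₀(K, ℂ)) (ν : Rad.Meas K) :
    dd x * ‖ν‖ ≤ ∑ j, ‖(show Rad.Meas K from x j) * ν‖ := by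
  rcases eq_or_ne ν 0 with rfl | hν
  · rw [norm_zero, mul_zero]
    exact Finset.sum_nonneg fun j _ => norm_nonneg ((show Rad.Meas K from x j) * 0)
  · have hp : 0 < ‖ν‖ := norm_pos_iff.2 hν
    set ν' : Rad.Meas K := ((‖ν‖⁻¹ : ℝ) : ℂ) • ν with hν'
    have h1 : ‖ν'‖ = 1 := by
      rw [hν', norm_smul, Complex.norm_real, norm_inv, norm_norm, inv_mul_cancel₀ hp.ne']
    have h2 : dd x ≤ ∑ j, ‖(show Rad.Meas K from x j) * ν'‖ := by
      refine csInf_le ⟨0, ?_⟩ ⟨ν', h1, rfl⟩
      rintro r ⟨ν, -, rfl⟩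
      exact Finset.sum_nonneg fun j _ => (convolve (x j) ν).opNorm_nonneg
    have h3 : ∀ j, ‖(show Rad.Meas K from x j) * ν'‖ = ‖ν‖⁻¹ * ‖(show Rad.Meas K from x j) * ν‖ := by
      intro j
      rw [hν', mul_smul_comm, norm_smul, Complex.norm_real, norm_inv, norm_norm]
    simp only [h3] at h2
    rw [← Finset.mul_sum, ← div_eq_inv_mul, le_div_iff₀ hp] at h2
    exact h2

theorem not_cortex_of {n : ℕ} {c : ℝ} (hc : 0 < c)
    (h : ∃ ψ : StrongDual ℂ C₀(K, ℂ) →ₗ[ℂ] ℂ, IsCharacter ψ ∧
      ∃ y : Fin n → StrongDual ℂ C₀(K, ℂ), (∀ j, ψ (y j) = 0) ∧ c ≤ dd y) :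
    ¬ IsCortexAlgebra K := by
  intro hK
  obtain ⟨ψ, hψ, y, hy, hd⟩ := h
  have h0 := hK ψ hψ n y hy
  rw [h0] at hd
  linarith

end

/-- The cortex property passes to quotients by compact subgroups. -/
theorem quotient {K : Type u} [AddCommGroup K] [TopologicalSpace K] [IsTopologicalAddGroup K]
    [T2Space K] [LocallyCompactSpace K] {Q : Type v} [AddCommGroup Q] [TopologicalSpace Q]
    [IsTopologicalAddGroup Q] [T2Space Q] [LocallyCompactSpace Q] (q : K →+ Q)
    (hq : IsProperMap q) (hs : Function.Surjective q) (hK : IsCortexAlgebra K) :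
    IsCortexAlgebra Q := by
  intro φ hφ n x hx
  by_contra hne
  have hpos : 0 < dd x := lt_of_le_of_ne (dd_nonneg x) (Ne.symm hne)
  have h1 : φ (1 : Rad.Meas Q) = 1 := by
    have h2 : ∃ a : Rad.Meas Q, φ a ≠ 0 := by
      by_contra hcon
      push Not at hcon
      exact hφ.1 (LinearMap.ext hcon)
    obtain ⟨a, ha⟩ := h2
    have h3 : φ ((1 : Rad.Meas Q) * a) = φ (1 : Rad.Meas Q) * φ a := hφ.2 _ _
    rw [one_mul] at h3
    exact (mul_eq_right₀ ha).1 h3.symm
  let φ' : Rad.Meas Q →ₐ[ℂ] ℂ := AlgHom.ofLinearMap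
    { toFun := fun μ => φ μ
      map_add' := fun a b => map_add φ a b
      map_smul' := fun c a => map_smul φ c a } h1 (fun a b => hφ.2 a b)
  have hb : ∀ ν : Rad.Meas Q, min (dd x) 1 * ‖ν‖ ≤ ∑ j, ‖(show Rad.Meas Q from x j) * ν‖ :=
    fun ν => (mul_le_mul_of_nonneg_right (min_le_left _ _) (norm_nonneg _)).trans (bound_of_dd x ν)
  obtain ⟨ψ, y, hy, hb2⟩ := transfer q hq hs φ' n x hx (min (dd x) 1)
    (le_min hpos.le zero_le_one) (min_le_right _ _) hb
  exact not_cortex_of (lt_min hpos one_pos) (of_bound ψ y hy _ hb2) hK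

/-- The group `G₀ = ∏_{(k,j) ∈ ℕ × ℕ} (ℤ/2 × ℤ/(k+2))`. -/
abbrev G0 : Type := ∀ i : ℕ × ℕ, ZMod 2 × ZMod (i.1 + 2)

/-- one coordinate of the embedding of `G₀` into a torus -/
noncomputable def coord (p : (ℕ × ℕ) × Bool) : G0 →+ UnitAddCircle :=
  if p.2 then (ZMod.toAddCircle.comp (AddMonoidHom.fst _ _)).comp (Pi.evalAddMonoidHom _ p.1)
  else (ZMod.toAddCircle.comp (AddMonoidHom.snd _ _)).comp (Pi.evalAddMonoidHom _ p.1)

theorem coord_cont (p : (ℕ × ℕ) × Bool) : Continuous (coord p) := by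
  unfold coord
  split_ifs
  · exact (continuous_of_discreteTopology (f := ZMod.toAddCircle)).comp
      (continuous_fst.comp (continuous_apply p.1))
  · exact (continuous_of_discreteTopology (f := ZMod.toAddCircle)).comp
      (continuous_snd.comp (continuous_apply p.1))

/-- `G₀` embeds into every infinite-dimensional torus. -/
theorem exists_embedding (I : Type u) [Infinite I] :
    ∃ j : G0 →+ (I → UnitAddCircle), Continuous j ∧ Function.Injective j := by
  classical
  obtain ⟨e⟩ : Nonempty (((ℕ × ℕ) × Bool) ↪ I) := by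
    let e1 : ((ℕ × ℕ) × Bool) ↪ ℕ := ⟨Encodable.encode, Encodable.encode_injective⟩
    exact ⟨e1.trans (Infinite.natEmbedding I)⟩
  let h : I → (G0 →+ UnitAddCircle) := fun t =>
    if ht : ∃ p, e p = t then coord ht.choose else 0
  have hh : ∀ p, h (e p) = coord p := by
    intro p
    have hp : ∃ p', e p' = e p := ⟨p, rfl⟩
    have h1 : h (e p) = coord hp.choose := dif_pos hp
    rw [h1, e.injective hp.choose_spec]
  refine ⟨AddMonoidHom.pi h, ?_, ?_⟩
  · refine continuous_pi fun t => ?_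
    change Continuous (h t)
    by_cases ht : ∃ p, e p = t
    · obtain ⟨p, rfl⟩ := ht
      rw [hh]
      exact coord_cont p
    · have h1 : h t = 0 := dif_neg ht
      rw [h1]
      exact continuous_const
  · intro z z' hz
    have h1 : ∀ p, coord p z = coord p z' := by
      intro p
      have h2 := congrFun hz (e p)
      change h (e p) z = h (e p) z' at h2
      rwa [hh] at h2
    funext i
    refine Prod.ext ?_ ?_
    · exact ZMod.toAddCircle_injective _ (h1 (i, true))
    · exact ZMod.toAddCircle_injective _ (h1 (i, false))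

/-- **Measure algebras that are not cortex algebras.**

(1) Let `q : K → Q` be a continuous proper surjective homomorphism of locally compact Hausdorff
abelian groups (so `Q` is the quotient of `K` by a compact subgroup).  If `M(K)` is a cortex
algebra, then so is `M(Q)`.

(2) If moreover `Q` admits a continuous injective homomorphism from the compact group
`G₀ = ∏_{(k,j)} (ℤ/2 × ℤ/(k+2))`, then `M(K)` is not a cortex algebra: there are a character `φ` of
`M(K)` and three measures in its kernel with `d(x₁, x₂, x₃) ≥ 3/4`.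

(3) In particular `M(K)` is not a cortex algebra if `K` is the product of an infinite-dimensional
torus `𝕋^I`, `I` infinite, and any locally compact Hausdorff abelian group `H`, nor if `K` is a
compact Hausdorff abelian group that has some `𝕋^I`, `I` infinite, as a continuous homomorphic
image. -/
theorem result :
    (∀ (K : Type u) (Q : Type v) [AddCommGroup K] [TopologicalSpace K] [IsTopologicalAddGroup K]
      [T2Space K] [LocallyCompactSpace K] [AddCommGroup Q] [TopologicalSpace Q]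
      [IsTopologicalAddGroup Q] [T2Space Q] [LocallyCompactSpace Q] (q : K →+ Q),
      IsProperMap q → Function.Surjective q →
      (IsCortexAlgebra K → IsCortexAlgebra Q) ∧
      ∀ i : (∀ i : ℕ × ℕ, ZMod 2 × ZMod (i.1 + 2)) →+ Q, Continuous i → Function.Injective i →
        (∃ φ : StrongDual ℂ C₀(K, ℂ) →ₗ[ℂ] ℂ, IsCharacter φ ∧
          ∃ x : Fin 3 → StrongDual ℂ C₀(K, ℂ), (∀ j, φ (x j) = 0) ∧ 3 / 4 ≤ dd x) ∧
        ¬ IsCortexAlgebra K) ∧
    (∀ (I : Type v) [Infinite I] (H : Type v) [AddCommGroup H] [TopologicalSpace H]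
      [IsTopologicalAddGroup H] [T2Space H] [LocallyCompactSpace H],
      ¬ IsCortexAlgebra ((I → UnitAddCircle) × H)) ∧
    (∀ (I : Type v) [Infinite I] (K : Type u) [AddCommGroup K] [TopologicalSpace K]
      [IsTopologicalAddGroup K] [T2Space K] [CompactSpace K] (q : K →+ (I → UnitAddCircle)),
      Continuous q → Function.Surjective q → ¬ IsCortexAlgebra K) := by
  have main : ∀ (K : Type u) (Q : Type v) [AddCommGroup K] [TopologicalSpace K]
      [IsTopologicalAddGroup K] [T2Space K] [LocallyCompactSpace K] [AddCommGroup Q]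
      [TopologicalSpace Q] [IsTopologicalAddGroup Q] [T2Space Q] [LocallyCompactSpace Q]
      (q : K →+ Q), IsProperMap q → Function.Surjective q →
      ∀ i : (∀ i : ℕ × ℕ, ZMod 2 × ZMod (i.1 + 2)) →+ Q, Continuous i → Function.Injective i →
        (∃ φ : StrongDual ℂ C₀(K, ℂ) →ₗ[ℂ] ℂ, IsCharacter φ ∧
          ∃ x : Fin 3 → StrongDual ℂ C₀(K, ℂ), (∀ j, φ (x j) = 0) ∧ 3 / 4 ≤ dd x) ∧
        ¬ IsCortexAlgebra K := by
    intro K Q _ _ _ _ _ _ _ _ _ _ q hq hs i hi hinj
    obtain ⟨φ, x, hx, hb⟩ := mainQ q hq hs i hi hinj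
    have h := of_bound φ x hx (3 / 4) hb
    exact ⟨h, not_cortex_of (by norm_num) h⟩
  refine ⟨fun K Q _ _ _ _ _ _ _ _ _ _ q hq hs => ⟨quotient q hq hs, main K Q q hq hs⟩, ?_, ?_⟩
  · intro I _ H _ _ _ _ _
    obtain ⟨j, hj, hinj⟩ := exists_embedding I
    have h := mainK (K := (I → UnitAddCircle) × H)
      ((AddMonoidHom.inl (I → UnitAddCircle) H).comp j)
      (Continuous.isProperMap ((continuous_id.prodMk continuous_const).comp hj))
      (fun a b hab => hinj (congrArg Prod.fst hab))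
    obtain ⟨φ, x, hx, hb⟩ := h
    exact not_cortex_of (by norm_num) (of_bound φ x hx (3 / 4) hb)
  · intro I _ K _ _ _ _ _ q hq hs
    obtain ⟨j, hj, hinj⟩ := exists_embedding I
    exact (main K (I → UnitAddCircle) q hq.isProperMap hs j hj hinj).2

end Pool.Agent.Results.MP_4cde56_an.InfiniteTori
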